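import Pool.Agent.Lib.RM22.Count

/-!
# Distances in regular graphs of diameter at most three on `d² + 1` vertices
-/

set_option autoImplicit false

namespace Pool.Agent.RM22

open Finset

/-- The status of `v`: the sum of the distances from `v`. -/
noncomputable def status {V : Type*} [Fintype V] (G : SimpleGraph V) (v : V) : ℕ :=
  ∑ u, G.dist v u

/-- The status of `G`: the sum of the distances over all ordered pairs. -/
noncomputable def totalStatus {V : Type*} [Fintype V] (G : SimpleGraph V) : ℕ :=
  ∑ v, status G v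

/-- `c(v) = 3 d² - 2 d - s(v)`. -/
noncomputable def gap {V : Type*} [Fintype V] (G : SimpleGraph V) (d : ℕ) (v : V) : ℝ :=
  3 * (d : ℝ) ^ 2 - 2 * d - status G v

section

variable {V : Type*} {G : SimpleGraph V}

theorem dist_le_two {u a w : V} (h1 : G.Adj u a) (h2 : G.Adj a w) : G.dist u w ≤ 2 := by
  have := G.dist_le (SimpleGraph.Walk.cons h1 (SimpleGraph.Walk.cons h2 SimpleGraph.Walk.nil))
  simpa using this

theorem dist_le_three {u a b w : V} (h1 : G.Adj u a) (h2 : G.Adj a b) (h3 : G.Adj b w) :
    G.dist u w ≤ 3 := by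
  have := G.dist_le (SimpleGraph.Walk.cons h1 (SimpleGraph.Walk.cons h2
    (SimpleGraph.Walk.cons h3 SimpleGraph.Walk.nil)))
  simpa using this

theorem exists_two (hc : G.Connected) {u w : V} (h : G.dist u w = 2) :
    ∃ a, G.Adj u a ∧ G.Adj a w := by
  obtain ⟨p, hp⟩ := hc.exists_walk_length_eq_dist u w
  rw [h] at hp
  rcases p with _ | ⟨h1, p⟩
  · simp at hp
  · rcases p with _ | ⟨h2, p⟩
    · simp at hp
    · rcases p with _ | ⟨h3, p⟩
      · exact ⟨_, h1, h2⟩
      · simp at hp

theorem exists_three (hc : G.Connected) {u w : V} (h : G.dist u w = 3) :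
    ∃ a b, G.Adj u a ∧ G.Adj a b ∧ G.Adj b w := by
  obtain ⟨p, hp⟩ := hc.exists_walk_length_eq_dist u w
  rw [h] at hp
  rcases p with _ | ⟨h1, p⟩
  · simp at hp
  · rcases p with _ | ⟨h2, p⟩
    · simp at hp
    · rcases p with _ | ⟨h3, p⟩
      · simp at hp
      · rcases p with _ | ⟨h4, p⟩
        · exact ⟨_, _, h1, h2, h3⟩
        · simp at hp

theorem dist_adj_le (hc : G.Connected) {u a w : V} (h : G.Adj u a) :
    G.dist u w ≤ G.dist a w + 1 := by
  have h1 := hc.dist_triangle (u := u) (v := a) (w := w)
  have h2 := G.dist_eq_one_iff_adj.2 h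
  omega

end

section

variable {V : Type*} [Fintype V] (G : SimpleGraph V)

open Classical in
/-- The vertices at distance `k` from `v`. -/
noncomputable def D (k : ℕ) (v : V) : Finset V := univ.filter fun u => G.dist v u = k

theorem mem_D {k : ℕ} {v u : V} : u ∈ D G k v ↔ G.dist v u = k := by
  classical
  simp [D]

theorem D_comm {k : ℕ} {v u : V} : u ∈ D G k v ↔ v ∈ D G k u := by
  rw [mem_D, mem_D, G.dist_comm]

theorem mem_D_one {v u : V} : u ∈ D G 1 v ↔ G.Adj v u := by
  rw [mem_D, SimpleGraph.dist_eq_one_iff_adj]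

theorem card_D_zero (hc : G.Connected) (v : V) : (D G 0 v).card = 1 := by
  classical
  have : D G 0 v = {v} := by
    ext u
    rw [mem_D, hc.dist_eq_zero_iff, mem_singleton]
    exact eq_comm
  rw [this, card_singleton]

theorem card_D_one [G.LocallyFinite] {d : ℕ} (hr : G.IsRegularOfDegree d) (v : V) :
    (D G 1 v).card = d := by
  classical
  rw [← hr v, ← G.card_neighborFinset_eq_degree]
  refine congrArg card ?_
  ext u
  rw [mem_D_one, SimpleGraph.mem_neighborFinset]

theorem card_D_sum (h3 : ∀ u v, G.dist u v ≤ 3) (v : V) :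
    (D G 0 v).card + (D G 1 v).card + (D G 2 v).card + (D G 3 v).card = Fintype.card V := by
  classical
  simp only [D, card_filter]
  rw [← sum_add_distrib, ← sum_add_distrib, ← sum_add_distrib, ← card_univ, card_eq_sum_ones]
  refine sum_congr rfl fun u _ => ?_
  have := h3 v u
  interval_cases hh : G.dist v u <;> simp

theorem status_eq (h3 : ∀ u v, G.dist u v ≤ 3) (v : V) :
    status G v = (D G 1 v).card + 2 * (D G 2 v).card + 3 * (D G 3 v).card := by
  classical
  simp only [D, card_filter, status]
  rw [mul_sum, mul_sum, ← sum_add_distrib, ← sum_add_distrib]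
  refine sum_congr rfl fun u _ => ?_
  have := h3 v u
  interval_cases hh : G.dist v u <;> simp

end

end Pool.Agent.RM22
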