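import Mathlib

/-!
# A counting lemma for bipartite graphs covered by products
-/

set_option autoImplicit false

namespace Pool.Agent.RM22

open Finset

/-- If every element of `X` and of `Y` shares a middle point of `M` with the other side, then the
number of related pairs is at least `|X| + |Y| - |M|`. -/
theorem count_le {A B Z : Type*} (e : Z → ℕ) (he : Function.Injective e)
    (X : Finset A) (Y : Finset B) (M : Finset Z) (R : Finset (A × B))
    (p : A → Z → Prop) (q : B → Z → Prop)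
    (hM : ∀ z ∈ M, (∃ x, p x z) ∧ ∃ y, q y z)
    (hX : ∀ x ∈ X, ∃ z ∈ M, p x z) (hY : ∀ y ∈ Y, ∃ z ∈ M, q y z)
    (hXR : ∀ x ∈ X, ∀ z y, p x z → q y z → (x, y) ∈ R)
    (hYR : ∀ y ∈ Y, ∀ z x, p x z → q y z → (x, y) ∈ R) :
    X.card + Y.card ≤ R.card + M.card := by
  classical
  rcases M.eq_empty_or_nonempty with h0 | ⟨z0, hz0⟩
  · have hX0 : X = ∅ := by
      rw [eq_empty_iff_forall_notMem]
      intro x hx
      obtain ⟨z, hz, -⟩ := hX x hx
      rw [h0] at hz
      exact notMem_empty z hz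
    have hY0 : Y = ∅ := by
      rw [eq_empty_iff_forall_notMem]
      intro x hx
      obtain ⟨z, hz, -⟩ := hY x hx
      rw [h0] at hz
      exact notMem_empty z hz
    rw [hX0, hY0]
    simp
  haveI : Nonempty Z := ⟨z0⟩
  have hX' : ∀ x ∈ X, ∃ z, z ∈ M ∧ p x z ∧ ∀ z' ∈ M, p x z' → e z ≤ e z' := by
    intro x hx
    obtain ⟨z, hz, hz'⟩ := exists_min_image (M.filter fun z => p x z) e
      (by obtain ⟨z, hz, hp⟩ := hX x hx; exact ⟨z, mem_filter.2 ⟨hz, hp⟩⟩)
    rw [mem_filter] at hz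
    exact ⟨z, hz.1, hz.2, fun z1 h1 h2 => hz' z1 (mem_filter.2 ⟨h1, h2⟩)⟩
  have hY' : ∀ y ∈ Y, ∃ z, z ∈ M ∧ q y z ∧ ∀ z' ∈ M, q y z' → e z ≤ e z' := by
    intro y hy
    obtain ⟨z, hz, hz'⟩ := exists_min_image (M.filter fun z => q y z) e
      (by obtain ⟨z, hz, hp⟩ := hY y hy; exact ⟨z, mem_filter.2 ⟨hz, hp⟩⟩)
    rw [mem_filter] at hz
    exact ⟨z, hz.1, hz.2, fun z1 h1 h2 => hz' z1 (mem_filter.2 ⟨h1, h2⟩)⟩
  have hA : Nonempty A := by
    obtain ⟨⟨x, -⟩, -⟩ := hM z0 hz0
    exact ⟨x⟩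
  have hB : Nonempty B := by
    obtain ⟨-, ⟨y, -⟩⟩ := hM z0 hz0
    exact ⟨y⟩
  choose! i hi1 hi2 hi3 using hX'
  choose! j hj1 hj2 hj3 using hY'
  have hM1 : ∀ z ∈ M, ∃ x, p x z := fun z hz => (hM z hz).1
  have hM2 : ∀ z ∈ M, ∃ y, q y z := fun z hz => (hM z hz).2
  choose! a ha using hM1
  choose! b hb using hM2
  have c1 : (X.filter fun x => x = a (i x)).card ≤ M.card := by
    refine card_le_card_of_injOn i (fun x hx => ?_) ?_
    · exact hi1 x (mem_filter.1 hx).1
    · intro x hx x' hx' h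
      have h1 := (mem_filter.1 hx).2
      have h2 := (mem_filter.1 hx').2
      rw [h1, h2]
      exact congrArg a h
  have c2 : (X.filter fun x => ¬ x = a (i x)).card + Y.card ≤ R.card := by
    have e1 : ((X.filter fun x => ¬ x = a (i x)).image fun x => (x, b (i x))).card =
        (X.filter fun x => ¬ x = a (i x)).card := by
      refine card_image_of_injective _ fun x x' h => ?_
      exact (Prod.mk.inj h).1
    have e2 : (Y.image fun y => (a (j y), y)).card = Y.card := by
      refine card_image_of_injective _ fun x x' h => ?_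
      exact (Prod.mk.inj h).2
    have e3 : Disjoint ((X.filter fun x => ¬ x = a (i x)).image fun x => (x, b (i x)))
        (Y.image fun y => (a (j y), y)) := by
      rw [disjoint_left]
      intro s hs hs'
      obtain ⟨x, hx, rfl⟩ := mem_image.1 hs
      obtain ⟨y, hy, hxy⟩ := mem_image.1 hs'
      obtain ⟨h1, h2⟩ := Prod.mk.inj hxy
      rw [mem_filter] at hx
      have f1 : e (i x) ≤ e (j y) := by
        refine hi3 x hx.1 (j y) (hj1 y hy) ?_
        rw [← h1]
        exact ha _ (hj1 y hy)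
      have f2 : e (j y) ≤ e (i x) := by
        refine hj3 y hy (i x) (hi1 x hx.1) ?_
        rw [h2]
        exact hb _ (hi1 x hx.1)
      have f3 : i x = j y := he (le_antisymm f1 f2)
      exact hx.2 (by rw [f3]; exact h1.symm)
    rw [← e1, ← e2, ← card_union_of_disjoint e3]
    refine card_le_card fun s hs => ?_
    rcases mem_union.1 hs with hs | hs
    · obtain ⟨x, hx, rfl⟩ := mem_image.1 hs
      have hx1 := (mem_filter.1 hx).1
      exact hXR x hx1 (i x) (b (i x)) (hi2 x hx1) (hb _ (hi1 x hx1))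
    · obtain ⟨y, hy, rfl⟩ := mem_image.1 hs
      exact hYR y hy (j y) (a (j y)) (ha _ (hj1 y hy)) (hj2 y hy)
  have c3 := card_filter_add_card_filter_not (s := X) (fun x => x = a (i x))
  omega

end Pool.Agent.RM22
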