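import Pool.Agent.Lib.RM22.Main

/-!
# Bounds for the total status
-/

set_option autoImplicit false

namespace Pool.Agent.RM22

open Finset

section

variable {V : Type*} [Fintype V] (G : SimpleGraph V)

theorem gap_eq {d : ℕ} (hcard : Fintype.card V = d ^ 2 + 1) (hc : G.Connected)
    (h3 : ∀ u v, G.dist u v ≤ 3) (hd : ∀ v, (D G 1 v).card = d) (v : V) :
    gap G d v = (D G 2 v).card ∧
      ((D G 3 v).card : ℝ) = (d : ℝ) ^ 2 - d - (D G 2 v).card := by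
  have h1 := card_D_sum G h3 v
  rw [card_D_zero G hc, hd, hcard] at h1
  have h2 := status_eq G h3 v
  rw [hd] at h2
  have h1' : (1 : ℝ) + d + (D G 2 v).card + (D G 3 v).card = (d : ℝ) ^ 2 + 1 := by
    exact_mod_cast h1
  have h2' : (status G v : ℝ) = d + 2 * (D G 2 v).card + 3 * (D G 3 v).card := by
    exact_mod_cast h2
  have h4 : ((D G 3 v).card : ℝ) = (d : ℝ) ^ 2 - d - (D G 2 v).card := by linarith
  refine ⟨?_, h4⟩
  unfold gap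
  rw [h2', h4]
  ring

theorem main_real {d : ℕ} (hcard : Fintype.card V = d ^ 2 + 1) (hc : G.Connected)
    (h3 : ∀ u v, G.dist u v ≤ 3) (hd : ∀ v, (D G 1 v).card = d) :
    (d : ℝ) ^ 2 * ((d : ℝ) ^ 2 + 1) * (2 * d - 3) ≤
      ((d : ℝ) ^ 2 + 6 * d) * ∑ v, gap G d v + ∑ v, gap G d v ^ 2 := by
  have h1 : (2 * (d : ℝ) * ∑ v, ((D G 3 v).card : ℝ)) ≤
      ((d : ℝ) ^ 2 + 2 * d) * ∑ v, ((D G 2 v).card : ℝ) +
        ∑ v, ((d : ℝ) + (D G 2 v).card) ^ 2 := by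
    exact_mod_cast main_ineq G hc h3 hd
  have hg := gap_eq G hcard hc h3 hd
  have s2 : ∀ v, ((D G 2 v).card : ℝ) = gap G d v := fun v => (hg v).1.symm
  have s3 : ∀ v, ((D G 3 v).card : ℝ) = (d : ℝ) ^ 2 - d - gap G d v := fun v => by
    rw [(hg v).2, s2]
  simp only [s2, s3] at h1
  have e1 : ∑ v, ((d : ℝ) ^ 2 - d - gap G d v) =
      ((d : ℝ) ^ 2 + 1) * ((d : ℝ) ^ 2 - d) - ∑ v, gap G d v := by
    rw [sum_sub_distrib, sum_const, card_univ, hcard, nsmul_eq_mul]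
    push_cast
    ring
  have e2 : ∑ v, ((d : ℝ) + gap G d v) ^ 2 =
      ((d : ℝ) ^ 2 + 1) * (d : ℝ) ^ 2 + 2 * d * ∑ v, gap G d v + ∑ v, gap G d v ^ 2 := by
    have : ∀ v, ((d : ℝ) + gap G d v) ^ 2 =
        (d : ℝ) ^ 2 + 2 * d * gap G d v + gap G d v ^ 2 := fun v => by ring
    rw [sum_congr rfl fun v _ => this v, sum_add_distrib, sum_add_distrib, sum_const, card_univ,
      hcard, nsmul_eq_mul, mul_sum]
    push_cast
    ring
  rw [e1, e2] at h1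
  linarith

theorem gap_bounds {d : ℕ} (hd1 : 1 ≤ d) (hcard : Fintype.card V = d ^ 2 + 1) (hc : G.Connected)
    (h3 : ∀ u v, G.dist u v ≤ 3) (hd : ∀ v, (D G 1 v).card = d) (v : V) :
    (d : ℝ) - 1 ≤ gap G d v ∧ gap G d v ≤ (d : ℝ) ^ 2 - d := by
  obtain ⟨h1, h2⟩ := gap_eq G hcard hc h3 hd v
  have h4 : ((D G 3 v).card : ℝ) ≤ ((d : ℝ) - 1) * (D G 2 v).card := by
    have := card_D_three_le G hc hd v
    have h5 : ((D G 3 v).card : ℝ) ≤ (((d - 1 : ℕ) : ℝ)) * (D G 2 v).card := by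
      exact_mod_cast this
    rwa [Nat.cast_sub hd1, Nat.cast_one] at h5
  have h5 : (0 : ℝ) ≤ (D G 3 v).card := Nat.cast_nonneg _
  have hd0 : (0 : ℝ) < d := by exact_mod_cast hd1
  rw [h1]
  constructor
  · rw [h2] at h4
    have : (d : ℝ) * ((d : ℝ) - 1) ≤ d * (D G 2 v).card := by nlinarith
    exact le_of_mul_le_mul_left this hd0
  · linarith

theorem total_eq {d : ℕ} (hcard : Fintype.card V = d ^ 2 + 1) :
    (totalStatus G : ℝ) =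
      ((d : ℝ) ^ 2 + 1) * (3 * (d : ℝ) ^ 2 - 2 * d) - ∑ v, gap G d v := by
  unfold gap totalStatus
  rw [sum_sub_distrib, sum_const, card_univ, hcard, nsmul_eq_mul]
  push_cast
  ring

theorem general_bound {d : ℕ} (hd1 : 1 ≤ d) (hcard : Fintype.card V = d ^ 2 + 1)
    (hc : G.Connected) (h3 : ∀ u v, G.dist u v ≤ 3) (hd : ∀ v, (D G 1 v).card = d) :
    (totalStatus G : ℝ) ≤ ((d : ℝ) ^ 2 + 1) * (3 * (d : ℝ) ^ 2 - 7 / 2 * d + 7) := by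
  have hm := main_real G hcard hc h3 hd
  have hb := gap_bounds G hd1 hcard hc h3 hd
  have hd0 : (1 : ℝ) ≤ d := by exact_mod_cast hd1
  have h1 : ∑ v, gap G d v ^ 2 ≤ ((d : ℝ) ^ 2 - 1) * ∑ v, gap G d v -
      ((d : ℝ) ^ 2 + 1) * (d * ((d : ℝ) - 1) ^ 2) := by
    have : ∀ v ∈ (univ : Finset V), gap G d v ^ 2 ≤
        ((d : ℝ) ^ 2 - 1) * gap G d v - d * ((d : ℝ) - 1) ^ 2 := by
      intro v _
      nlinarith [mul_nonneg (sub_nonneg.2 (hb v).1) (sub_nonneg.2 (hb v).2)]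
    refine (sum_le_sum this).trans (le_of_eq ?_)
    rw [sum_sub_distrib, sum_const, card_univ, hcard, nsmul_eq_mul, mul_sum]
    push_cast
    ring
  rw [total_eq G hcard]
  set S := ∑ v, gap G d v with hS
  have h2 : (d : ℝ) * ((d : ℝ) ^ 2 + 1) * (3 * (d : ℝ) ^ 2 - 5 * d + 1) ≤
      (2 * (d : ℝ) ^ 2 + 6 * d - 1) * S := by
    nlinarith
  have h4 : ((d : ℝ) ^ 2 + 1) * (3 / 2 * d - 7) ≤ S := by
    by_contra hlt
    push Not at hlt
    have h5 : (0 : ℝ) < 2 * (d : ℝ) ^ 2 + 6 * d - 1 := by nlinarith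
    have h6 := mul_lt_mul_of_pos_left hlt h5
    have h7 : (0 : ℝ) ≤ ((d : ℝ) ^ 2 + 1) * (89 / 2 * d - 7) :=
      mul_nonneg (by positivity) (by linarith)
    nlinarith
  nlinarith

theorem hubfree_bound {d : ℕ} (hd1 : 1 ≤ d) (hcard : Fintype.card V = d ^ 2 + 1)
    (hc : G.Connected) (h3 : ∀ u v, G.dist u v ≤ 3) (hd : ∀ v, (D G 1 v).card = d)
    {ε : ℝ} (h0 : 0 ≤ ε) (W : Finset V) (hW : (W.card : ℝ) ≤ ε * d)
    (hW' : ∀ v, v ∉ W → gap G d v ≤ ε * (d : ℝ) ^ 2) :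
    (totalStatus G : ℝ) ≤ 3 * (d : ℝ) ^ 4 - (4 - 3 * ε) * (d : ℝ) ^ 3 + 19 * (d : ℝ) ^ 2 := by
  classical
  have hm := main_real G hcard hc h3 hd
  have hb := gap_bounds G hd1 hcard hc h3 hd
  have hd0 : (1 : ℝ) ≤ d := by exact_mod_cast hd1
  have hg0 : ∀ v, 0 ≤ gap G d v := fun v => (sub_nonneg.2 hd0).trans (hb v).1
  have h2 : ∑ v, gap G d v ^ 2 ≤ ε * (d : ℝ) ^ 2 * ∑ v, gap G d v + ε * (d : ℝ) ^ 5 := by
    have : ∀ v ∈ (univ : Finset V), gap G d v ^ 2 ≤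
        ε * (d : ℝ) ^ 2 * gap G d v + if v ∈ W then (d : ℝ) ^ 4 else 0 := by
      intro v _
      by_cases hv : v ∈ W
      · rw [if_pos hv]
        have f1 : gap G d v ^ 2 ≤ ((d : ℝ) ^ 2) ^ 2 :=
          pow_le_pow_left₀ (hg0 v) ((hb v).2.trans (by linarith)) 2
        have f2 : 0 ≤ ε * (d : ℝ) ^ 2 * gap G d v :=
          mul_nonneg (mul_nonneg h0 (by positivity)) (hg0 v)
        calc gap G d v ^ 2 ≤ ((d : ℝ) ^ 2) ^ 2 := f1
          _ = (d : ℝ) ^ 4 := by ring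
          _ ≤ _ := by linarith
      · rw [if_neg hv, add_zero, sq]
        exact mul_le_mul_of_nonneg_right (hW' v hv) (hg0 v)
    refine (sum_le_sum this).trans ?_
    rw [sum_add_distrib, ← mul_sum, sum_ite_mem, univ_inter, sum_const, nsmul_eq_mul]
    have f3 : (W.card : ℝ) * (d : ℝ) ^ 4 ≤ ε * d * (d : ℝ) ^ 4 :=
      mul_le_mul_of_nonneg_right hW (by positivity)
    calc _ ≤ ε * (d : ℝ) ^ 2 * ∑ v, gap G d v + ε * d * (d : ℝ) ^ 4 := by linarith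
      _ = _ := by ring
  rw [total_eq G hcard]
  set S := ∑ v, gap G d v with hS
  have hX : (2 - 3 * ε) * (d : ℝ) ^ 3 - 16 * (d : ℝ) ^ 2 ≤ S := by
    by_contra hlt
    push Not at hlt
    have f1 : (0 : ℝ) < (d : ℝ) ^ 2 + 6 * d + ε * (d : ℝ) ^ 2 := by positivity
    have f2 := mul_lt_mul_of_pos_left hlt f1
    have f3 : (d : ℝ) ^ 2 * ((d : ℝ) ^ 2 + 1) * (2 * d - 3) - ε * (d : ℝ) ^ 5 ≤
        ((d : ℝ) ^ 2 + 6 * d + ε * (d : ℝ) ^ 2) * S := by nlinarith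
    have f4 : ((d : ℝ) ^ 2 + 6 * d + ε * (d : ℝ) ^ 2) *
        ((2 - 3 * ε) * (d : ℝ) ^ 3 - 16 * (d : ℝ) ^ 2) ≤
        (d : ℝ) ^ 2 * ((d : ℝ) ^ 2 + 1) * (2 * d - 3) - ε * (d : ℝ) ^ 5 := by
      have g1 : 0 ≤ ε ^ 2 * (d : ℝ) ^ 5 := by positivity
      have g2 : 0 ≤ ε * (d : ℝ) ^ 4 := by positivity
      have g3 : (d : ℝ) ^ 2 ≤ (d : ℝ) ^ 4 := pow_le_pow_right₀ hd0 (by norm_num)
      have g4 : 0 ≤ (d : ℝ) ^ 3 := by positivity
      nlinarith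
    linarith
  have hd2 : 0 ≤ (d : ℝ) := by linarith
  nlinarith

end

end Pool.Agent.RM22
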