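import Pool.Agent.Lib.RM22.Basic

/-!
# The main inequality
-/

set_option autoImplicit false

namespace Pool.Agent.RM22

open Finset

section

variable {V : Type*} [Fintype V] (G : SimpleGraph V)

open Classical in
/-- The indicator of distance `k`. -/
noncomputable def B (k : ℕ) (u v : V) : ℕ := if G.dist u v = k then 1 else 0

omit [Fintype V] in
theorem B_comm (k : ℕ) (u v : V) : B G k u v = B G k v u := by
  unfold B
  rw [G.dist_comm]

omit [Fintype V] in
theorem B_one_pos {u v : V} (h : G.Adj u v) : B G 1 u v = 1 := by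
  unfold B
  rw [if_pos (G.dist_eq_one_iff_adj.2 h)]

omit [Fintype V] in
theorem B_one_neg {u v : V} (h : ¬ G.Adj u v) : B G 1 u v = 0 := by
  unfold B
  rw [if_neg fun h' => h (G.dist_eq_one_iff_adj.1 h')]

omit [Fintype V] in
theorem B_pos {k : ℕ} {u v : V} (h : G.dist u v = k) : B G k u v = 1 := by
  unfold B
  rw [if_pos h]

omit [Fintype V] in
theorem B_neg {k : ℕ} {u v : V} (h : ¬ G.dist u v = k) : B G k u v = 0 := by
  unfold B
  rw [if_neg h]

theorem sum_B (k : ℕ) (v : V) : ∑ u, B G k v u = (D G k v).card := by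
  classical
  simp only [B, D, card_filter]

theorem sum_B' (k : ℕ) (v : V) : ∑ u, B G k u v = (D G k v).card := by
  rw [← sum_B]
  exact sum_congr rfl fun u _ => B_comm G k u v

theorem pair_le (hc : G.Connected) {v w : V} (hvw : G.dist v w = 3) :
    ∑ x, B G 1 v x * B G 3 x w + ∑ y, B G 1 w y * B G 3 y v ≤
      ∑ x, ∑ y, B G 1 v x * B G 1 w y * B G 2 x y +
        ∑ z, (B G 1 z v + B G 2 z v) * (B G 1 z w + B G 2 z w) := by
  classical
  have key := count_le (fun z : V => (Fintype.equivFin V z : ℕ))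
    (fun z z' h => (Fintype.equivFin V).injective (Fin.ext h))
    (univ.filter fun x => G.Adj v x ∧ G.dist x w = 3)
    (univ.filter fun y => G.Adj w y ∧ G.dist y v = 3)
    (univ.filter fun z => (∃ x, G.Adj v x ∧ G.Adj x z) ∧ ∃ y, G.Adj w y ∧ G.Adj y z)
    (univ.filter fun s : V × V => (G.Adj v s.1 ∧ G.Adj w s.2) ∧ G.dist s.1 s.2 = 2)
    (fun x z => G.Adj v x ∧ G.Adj x z) (fun y z => G.Adj w y ∧ G.Adj y z)
    (fun z hz => (mem_filter.1 hz).2)
    (by
      intro x hx
      obtain ⟨-, hx1, hx2⟩ := mem_filter.1 hx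
      obtain ⟨z, y, h1, h2, h3⟩ := exists_three hc hx2
      exact ⟨z, mem_filter.2 ⟨mem_univ _, ⟨x, hx1, h1⟩, y, h3.symm, h2.symm⟩, hx1, h1⟩)
    (by
      intro y hy
      obtain ⟨-, hy1, hy2⟩ := mem_filter.1 hy
      obtain ⟨z, x, h1, h2, h3⟩ := exists_three hc hy2
      exact ⟨z, mem_filter.2 ⟨mem_univ _, ⟨x, h3.symm, h2.symm⟩, y, hy1, h1⟩, hy1, h1⟩)
    (by
      intro x hx z y h1 h2
      obtain ⟨-, hx1, hx2⟩ := mem_filter.1 hx
      refine mem_filter.2 ⟨mem_univ _, ⟨hx1, h2.1⟩, ?_⟩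
      have f1 := dist_le_two h1.2 h2.2.symm
      have f2 := dist_adj_le hc (w := x) h2.1
      rw [G.dist_comm, hx2, G.dist_comm] at f2
      show G.dist x y = 2
      omega)
    (by
      intro y hy z x h1 h2
      obtain ⟨-, hy1, hy2⟩ := mem_filter.1 hy
      refine mem_filter.2 ⟨mem_univ _, ⟨h1.1, hy1⟩, ?_⟩
      have f1 := dist_le_two h1.2 h2.2.symm
      have f2 := dist_adj_le hc (w := y) h1.1
      rw [G.dist_comm, hy2] at f2
      show G.dist x y = 2
      omega)
  have e1 : (univ.filter fun x => G.Adj v x ∧ G.dist x w = 3).card =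
      ∑ x, B G 1 v x * B G 3 x w := by
    rw [card_filter]
    refine sum_congr rfl fun x _ => ?_
    by_cases h1 : G.Adj v x <;> by_cases h2 : G.dist x w = 3 <;>
      simp [h1, h2, B_pos, B_neg, B_one_pos, B_one_neg]
  have e2 : (univ.filter fun y => G.Adj w y ∧ G.dist y v = 3).card =
      ∑ y, B G 1 w y * B G 3 y v := by
    rw [card_filter]
    refine sum_congr rfl fun x _ => ?_
    by_cases h1 : G.Adj w x <;> by_cases h2 : G.dist x v = 3 <;>
      simp [h1, h2, B_pos, B_neg, B_one_pos, B_one_neg]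
  have e3 : (univ.filter fun s : V × V => (G.Adj v s.1 ∧ G.Adj w s.2) ∧ G.dist s.1 s.2 = 2).card =
      ∑ x, ∑ y, B G 1 v x * B G 1 w y * B G 2 x y := by
    rw [card_filter, ← univ_product_univ, sum_product]
    refine sum_congr rfl fun x _ => sum_congr rfl fun y _ => ?_
    by_cases h1 : G.Adj v x <;> by_cases h2 : G.Adj w y <;> by_cases h3 : G.dist x y = 2 <;>
      simp [h1, h2, h3, B_one_pos, B_one_neg, B_pos, B_neg]
  have e4 : (univ.filter fun z => (∃ x, G.Adj v x ∧ G.Adj x z) ∧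
      ∃ y, G.Adj w y ∧ G.Adj y z).card ≤
      ∑ z, (B G 1 z v + B G 2 z v) * (B G 1 z w + B G 2 z w) := by
    rw [card_filter]
    refine sum_le_sum fun z _ => ?_
    split_ifs with h
    · obtain ⟨⟨x, hx1, hx2⟩, y, hy1, hy2⟩ := h
      have g1 := dist_le_two hx1 hx2
      have g2 := dist_le_two hy1 hy2
      have g3 : G.dist v z ≠ 0 := by
        intro h0
        rw [hc.dist_eq_zero_iff] at h0
        subst h0
        rw [G.dist_comm] at g2
        omega
      have g4 : G.dist w z ≠ 0 := by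
        intro h0
        rw [hc.dist_eq_zero_iff] at h0
        subst h0
        omega
      have g5 : 1 ≤ B G 1 z v + B G 2 z v := by
        unfold B
        rw [G.dist_comm]
        rcases (by omega : G.dist v z = 1 ∨ G.dist v z = 2) with h | h <;> simp [h]
      have g6 : 1 ≤ B G 1 z w + B G 2 z w := by
        unfold B
        rw [G.dist_comm]
        rcases (by omega : G.dist w z = 1 ∨ G.dist w z = 2) with h | h <;> simp [h]
      exact Nat.mul_le_mul g5 g6
    · exact Nat.zero_le _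
  rw [e1, e2, e3] at key
  exact key.trans (Nat.add_le_add_left e4 _)

theorem point_le (hc : G.Connected) (h3 : ∀ u v, G.dist u v ≤ 3) {d : ℕ}
    (hd : ∀ v, (D G 1 v).card = d) (v w : V) :
    B G 3 v w * (2 * d) ≤
      ∑ x, B G 1 v x * B G 2 x w + ∑ y, B G 1 w y * B G 2 y v +
      (∑ x, ∑ y, B G 1 v x * B G 1 w y * B G 2 x y +
        ∑ z, (B G 1 z v + B G 2 z v) * (B G 1 z w + B G 2 z w)) := by
  classical
  by_cases hvw : G.dist v w = 3
  · have h := pair_le G hc hvw
    have aux : ∀ a b : V, G.dist a b = 3 →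
        d = ∑ x, B G 1 a x * B G 2 x b + ∑ x, B G 1 a x * B G 3 x b := by
      intro a b hab
      rw [← hd a, ← sum_B, ← sum_add_distrib]
      refine sum_congr rfl fun x _ => ?_
      by_cases hx : G.dist a x = 1
      · have f1 := dist_adj_le hc (w := b) (G.dist_eq_one_iff_adj.1 hx)
        have f2 := h3 x b
        unfold B
        rcases (by omega : G.dist x b = 2 ∨ G.dist x b = 3) with h | h <;> simp [hx, h]
      · unfold B
        simp [hx]
    have a1 := aux v w hvw
    have a2 := aux w v (by rw [G.dist_comm]; exact hvw)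
    have a3 : B G 3 v w = 1 := by
      unfold B
      simp [hvw]
    rw [a3]
    omega
  · have a3 : B G 3 v w = 0 := by
      unfold B
      simp [hvw]
    rw [a3, zero_mul]
    exact Nat.zero_le _

theorem main_ineq (hc : G.Connected) (h3 : ∀ u v, G.dist u v ≤ 3) {d : ℕ}
    (hd : ∀ v, (D G 1 v).card = d) :
    2 * d * ∑ v, (D G 3 v).card ≤
      (d ^ 2 + 2 * d) * ∑ v, (D G 2 v).card + ∑ v, (d + (D G 2 v).card) ^ 2 := by
  classical
  have h1 : ∑ v, ∑ w, B G 3 v w * (2 * d) = 2 * d * ∑ v, (D G 3 v).card := by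
    rw [mul_sum]
    refine sum_congr rfl fun v _ => ?_
    rw [← sum_mul, sum_B, mul_comm]
  have h2 : ∑ v, ∑ w, ∑ x, B G 1 v x * B G 2 x w = d * ∑ v, (D G 2 v).card := by
    have : ∀ v, ∑ w, ∑ x, B G 1 v x * B G 2 x w = ∑ x, B G 1 v x * (D G 2 x).card := by
      intro v
      rw [sum_comm]
      refine sum_congr rfl fun x _ => ?_
      rw [← mul_sum, sum_B]
    rw [sum_congr rfl fun v _ => this v, sum_comm, mul_sum]
    refine sum_congr rfl fun x _ => ?_
    rw [← sum_mul, sum_B', hd]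
  have h2' : ∑ v, ∑ w, ∑ y, B G 1 w y * B G 2 y v = d * ∑ v, (D G 2 v).card := by
    rw [sum_comm]
    exact h2
  have h4 : ∑ v, ∑ w, ∑ x, ∑ y, B G 1 v x * B G 1 w y * B G 2 x y =
      d ^ 2 * ∑ v, (D G 2 v).card := by
    have e : ∀ v, ∑ w, ∑ x, ∑ y, B G 1 v x * B G 1 w y * B G 2 x y =
        ∑ x, B G 1 v x * (d * (D G 2 x).card) := by
      intro v
      rw [sum_comm]
      refine sum_congr rfl fun x _ => ?_
      rw [sum_comm]
      rw [← sum_B, mul_sum, mul_sum]
      refine sum_congr rfl fun y _ => ?_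
      have : ∀ w, B G 1 v x * B G 1 w y * B G 2 x y = B G 1 w y * (B G 1 v x * B G 2 x y) := by
        intro w
        ring
      rw [sum_congr rfl fun w _ => this w, ← sum_mul, sum_B', hd]
      ring
    rw [sum_congr rfl fun v _ => e v, sum_comm, mul_sum]
    refine sum_congr rfl fun x _ => ?_
    rw [← sum_mul, sum_B', hd]
    ring
  have h5 : ∑ v, ∑ w, ∑ z, (B G 1 z v + B G 2 z v) * (B G 1 z w + B G 2 z w) =
      ∑ v, (d + (D G 2 v).card) ^ 2 := by
    have e : ∀ v, ∑ w, ∑ z, (B G 1 z v + B G 2 z v) * (B G 1 z w + B G 2 z w) =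
        ∑ z, (B G 1 z v + B G 2 z v) * (d + (D G 2 z).card) := by
      intro v
      rw [sum_comm]
      refine sum_congr rfl fun z _ => ?_
      rw [← mul_sum, sum_add_distrib, sum_B, sum_B, hd]
    rw [sum_congr rfl fun v _ => e v, sum_comm]
    refine sum_congr rfl fun z _ => ?_
    rw [← sum_mul, sum_add_distrib, sum_B, sum_B, hd]
    ring
  have h6 := sum_le_sum fun v (_ : v ∈ (univ : Finset V)) =>
    sum_le_sum fun w (_ : w ∈ (univ : Finset V)) => point_le G hc h3 hd v w
  rw [h1] at h6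
  refine h6.trans (le_of_eq ?_)
  simp only [sum_add_distrib]
  rw [h2, h2', h4, h5]
  ring

theorem card_D_three_le (hc : G.Connected) {d : ℕ} (hd : ∀ v, (D G 1 v).card = d) (v : V) :
    (D G 3 v).card ≤ (d - 1) * (D G 2 v).card := by
  classical
  have h1 : D G 3 v ⊆ (D G 2 v).biUnion fun z => (D G 1 z) \ (D G 1 v) := by
    intro u hu
    rw [mem_D] at hu
    obtain ⟨a, b, h1, h2, h4⟩ := exists_three hc hu
    refine mem_biUnion.2 ⟨b, ?_, ?_⟩
    · rw [mem_D]
      have f1 := dist_le_two h1 h2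
      have f2 := hc.dist_triangle (u := v) (v := b) (w := u)
      have f3 := G.dist_eq_one_iff_adj.2 h4
      omega
    · rw [mem_sdiff, mem_D_one, mem_D, hu]
      exact ⟨h4, by norm_num⟩
  refine (card_le_card h1).trans ?_
  rw [mul_comm]
  refine card_biUnion_le_card_mul _ _ _ fun z hz => ?_
  rw [mem_D] at hz
  obtain ⟨a, h5, h6⟩ := exists_two hc hz
  have h7 : (D G 1 z) \ (D G 1 v) ⊆ (D G 1 z).erase a := by
    intro u hu
    rw [mem_sdiff] at hu
    refine mem_erase.2 ⟨?_, hu.1⟩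
    rintro rfl
    exact hu.2 ((mem_D_one G).2 h5)
  refine (card_le_card h7).trans (le_of_eq ?_)
  rw [card_erase_of_mem ((mem_D_one G).2 h6.symm), hd]

end

end Pool.Agent.RM22
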